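import Pool.Agent.BoltzM.Uq.Basic

/-! U1: the weight inequality; no gain is needed since the angular mass has order two. -/

set_option autoImplicit false

open MeasureTheory Set Filter Topology
open scoped ENNReal RealInnerProductSpace

noncomputable section

namespace Pool.Agent.BoltzM.Uq

open Coll C3

variable [Dim]

/-- the square of the bracket -/
def br (v : E) : ℝ := 1 + ‖v‖ ^ 2

lemma one_le_br (v : E) : 1 ≤ br v := by unfold br; nlinarith [sq_nonneg ‖v‖]

lemma br_pos (v : E) : 0 < br v := lt_of_lt_of_le one_pos (one_le_br v)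

@[fun_prop] lemma continuous_br : Continuous br := by unfold br; fun_prop

@[fun_prop] lemma measurable_br : Measurable br := continuous_br.measurable

lemma wt_eq (v : E) : wt v = br v ^ 15 := rfl

lemma br_le (v : E) : br v ≤ (1 + ‖v‖) ^ 2 := by unfold br; nlinarith [norm_nonneg v]

lemma br_le_wt (v : E) : br v ≤ wt v := le_self_pow₀ (one_le_br v) (by norm_num)

lemma br_energy (v w : E) (o : S2) : br (pv v w o) + br (pw v w o) = br v + br w := by
  have := energy v w o
  unfold br; linarith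

lemma br_near (v w : E) (o : S2) (h : |rho (v, w, o)| ≤ 1) :
    |br (pv v w o) - br v| ≤ 2 * br w * |rho (v, w, o)| := by
  have e : br (pv v w o) - br v = -(rho (v, w, o) * (rho (v, w, o) + 2 * ⟪w, (o : E)⟫)) := by
    have h1 : ⟪v, (o : E)⟫ = rho (v, w, o) + ⟪w, (o : E)⟫ := by
      simp only [rho, inner_sub_left]; ring
    have h2 : pv v w o = v - rho (v, w, o) • (o : E) := rfl
    rw [br, br, h2, norm_sub_sq_real, inner_smul_right, norm_smul, norm_coe, h1]
    simp only [Real.norm_eq_abs, mul_one, sq_abs]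
    ring
  rw [e, abs_neg, abs_mul, mul_comm]
  refine mul_le_mul_of_nonneg_right ((abs_add_le _ _).trans ?_) (abs_nonneg _)
  rw [abs_mul, abs_two, br]
  nlinarith [abs_inner_le w o, sq_nonneg (‖w‖ - 1), sq_nonneg ‖w‖]

lemma add_le_two_mul (v w : E) : br v + br w ≤ 2 * br v * br w := by
  nlinarith [one_le_br v, one_le_br w, mul_nonneg (sub_nonneg.2 (one_le_br v))
    (sub_nonneg.2 (one_le_br w))]

lemma norm_sub_sq_le (v w : E) : ‖v - w‖ ^ 2 ≤ 2 * (br v + br w) := by
  have h1 : ‖v - w‖ ^ 2 ≤ (‖v‖ + ‖w‖) ^ 2 := by gcongr; exact norm_sub_le v w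
  unfold br
  nlinarith [sq_nonneg (‖v‖ - ‖w‖)]

lemma lint_kx_br (v w : E) : ∫⁻ o, ENNReal.ofReal (kx (v, w, o)) ∂sph
    ≤ ENNReal.ofReal (cA * (2 * (br v + br w))) := by
  refine (lint_kx_sph v w).trans (ENNReal.ofReal_le_ofReal ?_)
  rw [Real.rpow_two]
  exact mul_le_mul_of_nonneg_left (norm_sub_sq_le v w) cA_pos.le

omit [Dim] in
lemma pow_diff {x y M : ℝ} (hx : 0 ≤ x) (hy : 0 ≤ y) (h1 : x ≤ M) (h2 : y ≤ M) :
    |x ^ 15 - y ^ 15| ≤ |x - y| * 15 * M ^ 14 := by
  refine (abs_pow_sub_pow_le x y 15).trans ?_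
  rw [abs_of_nonneg hx, abs_of_nonneg hy]
  have : max x y ≤ M := max_le h1 h2
  have h0 : 0 ≤ max x y := le_max_of_le_left hx
  norm_num only
  gcongr

lemma pov_pt (v w : E) (o : S2) :
    kn (v, w, o) * (2 * |wt (pv v w o) - wt v|)
        + kf (v, w, o) * (wt (pv v w o) + wt (pw v w o) + wt w)
      ≤ kf (v, w, o) * wt v + kx (v, w, o) * (76 * 2 ^ 14 * (br v ^ 14 * br w ^ 15)) := by
  have ha := br_pos v
  have hb := br_pos w
  have ha' := br_pos (pv v w o)
  have hb' := br_pos (pw v w o)
  have he := br_energy v w o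
  have hM := add_le_two_mul v w
  have hx := kx_nonneg (v, w, o)
  have e1 : (2 * br v * br w) ^ 14 * br w = 2 ^ 14 * (br v ^ 14 * br w ^ 15) := by ring
  have h1 : kn (v, w, o) * (2 * |wt (pv v w o) - wt v|)
      ≤ kx (v, w, o) * (60 * (2 ^ 14 * (br v ^ 14 * br w ^ 15))) := by
    by_cases h : |rho (v, w, o)| ≤ 1
    · have a1 := pow_diff (M := 2 * br v * br w) ha'.le ha.le (by linarith) (by linarith)
      have a2 := br_near v w o h
      have a0 := kn_nonneg (v, w, o)
      calc kn (v, w, o) * (2 * |wt (pv v w o) - wt v|)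
          ≤ kn (v, w, o) * (2 * (2 * br w * |rho (v, w, o)| * 15 * (2 * br v * br w) ^ 14)) := by
            gcongr
            exact a1.trans (by gcongr)
        _ = kn (v, w, o) * |rho (v, w, o)| * (60 * ((2 * br v * br w) ^ 14 * br w)) := by
            generalize (2 * br v * br w) ^ 14 = Z; ring
        _ ≤ _ := by
            rw [e1]
            exact mul_le_mul_of_nonneg_right (kn_mul_abs_le _) (by positivity)
    · rw [kn, if_neg h, zero_mul]; positivity
  have h2 : wt (pv v w o) + wt (pw v w o) + wt w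
      ≤ wt v + 16 * (2 ^ 14 * (br v ^ 14 * br w ^ 15)) := by
    have a1 := pow_add_pow_le ha'.le hb'.le (n := 15) (by norm_num)
    have a2 := pow_diff (x := br v + br w) (y := br v) (M := 2 * br v * br w) (by linarith) ha.le hM
      (by linarith)
    rw [add_sub_cancel_left, abs_of_pos hb] at a2
    have a3 := le_abs_self ((br v + br w) ^ 15 - br v ^ 15)
    have a4 : br w ^ 15 ≤ 2 ^ 14 * (br v ^ 14 * br w ^ 15) :=
      (le_mul_of_one_le_left (by positivity) (one_le_pow₀ (one_le_br v))).trans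
        (le_mul_of_one_le_left (by positivity) (by norm_num))
    rw [he] at a1
    simp only [wt_eq]
    rw [← e1] at a4 ⊢
    generalize (2 * br v * br w) ^ 14 = Z at *
    linarith
  have h3 := mul_le_mul_of_nonneg_left h2 (kf_nonneg (v, w, o))
  have h4 := mul_le_mul_of_nonneg_right (kf_le (v, w, o))
    (show 0 ≤ 16 * (2 ^ 14 * (br v ^ 14 * br w ^ 15)) by positivity)
  generalize br v ^ 14 * br w ^ 15 = Z at *
  linarith

theorem pov : PovStmt := by
  have hA := cA_pos
  refine ⟨cA * 4 * (76 * 2 ^ 14), 32, by positivity, fun v w => ?_⟩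
  have ha := br_pos v
  have hb := br_pos w
  calc _ ≤ ∫⁻ o, (ENNReal.ofReal (kf (v, w, o) * wt v) + ENNReal.ofReal (kx (v, w, o))
        * ENNReal.ofReal (76 * 2 ^ 14 * (br v ^ 14 * br w ^ 15))) ∂sph := by
        refine lintegral_mono fun o => ?_
        simp only
        rw [← ENNReal.ofReal_mul (kx_nonneg _)]
        exact (ENNReal.ofReal_le_ofReal (pov_pt v w o)).trans ENNReal.ofReal_add_le
    _ ≤ _ := by
        rw [lintegral_add_right _ (by fun_prop), lintegral_mul_const _ (by fun_prop)]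
        refine add_le_add le_rfl ((mul_le_mul_left (lint_kx_br v w) _).trans ?_)
        rw [← ENNReal.ofReal_mul (by positivity)]
        refine ENNReal.ofReal_le_ofReal ?_
        have h1 : br w ^ 16 ≤ (1 + ‖w‖) ^ 32 := by
          rw [show 32 = 2 * 16 from rfl, pow_mul]
          exact pow_le_pow_left₀ hb.le (br_le w) 16
        calc cA * (2 * (br v + br w)) * (76 * 2 ^ 14 * (br v ^ 14 * br w ^ 15))
            ≤ cA * (2 * (2 * br v * br w)) * (76 * 2 ^ 14 * (br v ^ 14 * br w ^ 15)) := by
              gcongr; exact add_le_two_mul v w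
          _ = cA * 4 * (76 * 2 ^ 14) * br w ^ 16 * br v ^ 15 := by ring
          _ ≤ _ := by rw [wt_eq]; gcongr

end Pool.Agent.BoltzM.Uq
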