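import Pool.Agent.BoltzM.Uq.Basic
import Pool.Agent.BoltzM.C3.Bounds

/-! U3: the short jumps of the term in which the difference is the background. -/

set_option autoImplicit false

open MeasureTheory Set Filter Topology
open scoped ENNReal

noncomputable section

namespace Pool.Agent.BoltzM.Uq

open Coll C3

variable [Dim]

lemma int_mm (ε : ℝ) (F : E × E × S2 → ℝ) : ∫ p, F p ∂mm ε = ∫ p, kc ε p * F p ∂mu3 := by
  rw [mm, integral_withDensity_eq_integral_toReal_smul (by fun_prop)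
    (ae_of_all _ fun p => ENNReal.ofReal_lt_top)]
  simp only [ENNReal.toReal_ofReal (kc_nonneg ε _), smul_eq_mul]

lemma integrable_mm (ε : ℝ) {F : E × E × S2 → ℝ}
    (h : Integrable (fun p => kc ε p * F p) mu3) : Integrable F (mm ε) := by
  rw [mm, integrable_withDensity_iff_integrable_smul' (by fun_prop)
    (ae_of_all _ fun p => ENNReal.ofReal_lt_top)]
  simpa only [ENNReal.toReal_ofReal (kc_nonneg ε _), smul_eq_mul] using h

/-- convolution of the error kernel of the cancellation lemma with a decaying function -/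
lemma conv_dec : ∃ C : ℝ, 0 ≤ C ∧ ∀ (a : E → ℝ) (K : ℝ), Dec (1 + (dd + 1)) K a → ∀ v : E,
    ∫⁻ u, cbar ‖u‖ * ENNReal.ofReal |a (v - u)| ≤ ENNReal.ofReal (C * K * (1 + ‖v‖) ^ 1) := by
  have hcb := cb_pos
  set J : ℝ≥0∞ := (∫⁻ z, ENNReal.ofReal (jap z)) + ∫⁻ u, newt u with hJ
  have hJ' : J ≠ ⊤ := ENNReal.add_ne_top.2 ⟨lint_jap, lint_newt⟩
  refine ⟨cb * J.toReal, by positivity, fun a K ha v => ?_⟩
  have hK := ha.nonneg
  have h1 : ∀ u : E, cbar ‖u‖ * ENNReal.ofReal |a (v - u)|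
      ≤ ENNReal.ofReal (cb * K * (1 + ‖v‖) ^ 1) * (ENNReal.ofReal (jap (v - u)) + newt u) := by
    intro u
    have h2 : (1 + ‖u‖) ^ 1 * |a (v - u)| ≤ (1 + ‖v‖) ^ 1 * (K * jap (v - u)) := by
      have h3 : 1 + ‖u‖ ≤ (1 + ‖v‖) * (1 + ‖v - u‖) := by
        simpa using one_add_sub_le v (v - u)
      calc (1 + ‖u‖) ^ 1 * |a (v - u)|
          ≤ ((1 + ‖v‖) * (1 + ‖v - u‖)) ^ 1 * |a (v - u)| := by gcongr
        _ = (1 + ‖v‖) ^ 1 * ((1 + ‖v - u‖) ^ 1 * |a (v - u)|) := by rw [mul_pow, mul_assoc]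
        _ ≤ _ := mul_le_mul_of_nonneg_left (le_jap (n := 1) (ha _)) (by positivity)
    have hj : jap (v - u) ≤ 1 := by
      unfold jap
      exact inv_le_one_of_one_le₀ (one_le_pow₀ (by linarith [norm_nonneg (v - u)]))
    have hj0 := jap_pos (v - u)
    have h4 : cb * (1 + ‖u‖) ^ 1 / ‖u‖ * |a (v - u)|
        ≤ cb * K * (1 + ‖v‖) ^ 1 * (jap (v - u) * ‖u‖⁻¹) := by
      calc cb * (1 + ‖u‖) ^ 1 / ‖u‖ * |a (v - u)|
          = cb * ‖u‖⁻¹ * ((1 + ‖u‖) ^ 1 * |a (v - u)|) := by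
            generalize (1 + ‖u‖) ^ 1 = Z; ring
        _ ≤ cb * ‖u‖⁻¹ * ((1 + ‖v‖) ^ 1 * (K * jap (v - u))) := by gcongr
        _ = _ := by generalize (1 + ‖v‖) ^ 1 = Z; ring
    rw [cbar, ← ENNReal.ofReal_mul (by positivity)]
    refine (ENNReal.ofReal_le_ofReal h4).trans ?_
    rw [ENNReal.ofReal_mul (by positivity)]
    refine mul_le_mul_right ?_ _
    by_cases hu : u ∈ Metric.ball (0 : E) 1
    · rw [newt, indicator_of_mem hu]
      exact le_add_left (ENNReal.ofReal_le_ofReal (mul_le_of_le_one_left (by positivity) hj))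
    · have : 1 ≤ ‖u‖ := by simpa using hu
      exact le_add_right (ENNReal.ofReal_le_ofReal
        (mul_le_of_le_one_right hj0.le (inv_le_one_of_one_le₀ this)))
  have hm : Measurable fun u : E => ENNReal.ofReal (jap (v - u)) := by fun_prop
  calc _ ≤ ∫⁻ u, ENNReal.ofReal (cb * K * (1 + ‖v‖) ^ 1)
        * (ENNReal.ofReal (jap (v - u)) + newt u) := lintegral_mono h1
    _ = ENNReal.ofReal (cb * K * (1 + ‖v‖) ^ 1) * J := by
      rw [lintegral_const_mul' _ _ ENNReal.ofReal_ne_top, lintegral_add_left hm,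
        lintegral_sub_left_eq_self (fun z => ENNReal.ofReal (jap z)) v]
    _ = _ := by
      conv_lhs => rw [← ENNReal.ofReal_toReal hJ']
      rw [← ENNReal.ofReal_mul (by positivity)]
      congr 1
      generalize (1 + ‖v‖) ^ 1 = Z; ring

/-- moments of order at most 30 are bounded by the weighted norm -/
lemma lint_pow_le {h : E → ℝ} {K' : ℝ} (hh : Measurable h) (dh : Dec (dd + 60) K' h) {m : ℕ}
    (hm : m ≤ 30) : ∫⁻ w, ENNReal.ofReal ((1 + ‖w‖) ^ m) * ENNReal.ofReal |h w|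
      ≤ ENNReal.ofReal (2 ^ 15 * ∫ v, |h v| * wt v) := by
  have hi : Integrable fun v => |h v| * wt v :=
    Dec.integrable (m := 30) (dh.abs.mono (by omega)) (by fun_prop) measurable_wt fun v => by
      rw [abs_of_pos (wt_pos' v)]; exact wt_le_pow v
  rw [← integral_const_mul, ofReal_integral_eq_lintegral_ofReal (hi.const_mul _)
    (ae_of_all _ fun v => by have := wt_pos' v; positivity)]
  refine lintegral_mono fun w => ?_
  simp only
  rw [← ENNReal.ofReal_mul (by positivity)]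
  refine ENNReal.ofReal_le_ofReal ?_
  have h1 : (1 + ‖w‖) ^ m ≤ 2 ^ 15 * wt w :=
    (pow_le_pow_right₀ (by linarith [norm_nonneg w]) hm).trans (pow_le_wt w)
  calc (1 + ‖w‖) ^ m * |h w| ≤ 2 ^ 15 * wt w * |h w| := by gcongr
    _ = _ := by ring

/-- the error term of the cancellation lemma -/
lemma err_le : ∃ C : ℝ, 0 ≤ C ∧ ∀ (a h : E → ℝ) (K K' : ℝ), Measurable a →
    Dec (1 + (dd + 1)) K a → Measurable h → Dec (dd + 60) K' h →
    err (fun q => a q.1 * h q.2) ≤ ENNReal.ofReal (C * K * ∫ v, |h v| * wt v) := by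
  obtain ⟨C, hC, hc⟩ := conv_dec
  refine ⟨C * 2 ^ 15, by positivity, fun a h K K' ha da hh dh => ?_⟩
  have hK := da.nonneg
  have h1 : err (fun q => a q.1 * h q.2)
      = ∫⁻ v, ∫⁻ z, cbar ‖z - v‖ * ENNReal.ofReal |a v| * ENNReal.ofReal |h z| := by
    refine lintegral_congr fun v => ?_
    rw [← lintegral_sub_left_eq_self
      (fun z => cbar ‖z - v‖ * ENNReal.ofReal |a v| * ENNReal.ofReal |h z|) v]
    refine lintegral_congr fun u => ?_
    simp only [sub_sub_cancel_left, norm_neg, abs_mul, ENNReal.ofReal_mul (abs_nonneg _),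
      mul_assoc]
  have hm : Measurable (Function.uncurry fun v z : E =>
      cbar ‖z - v‖ * ENNReal.ofReal |a v| * ENNReal.ofReal |h z|) := by
    unfold Function.uncurry; fun_prop
  rw [h1, lintegral_lintegral_swap hm.aemeasurable]
  calc _ ≤ ∫⁻ z, ENNReal.ofReal (C * K) *
        (ENNReal.ofReal ((1 + ‖z‖) ^ 1) * ENNReal.ofReal |h z|) := by
        refine lintegral_mono fun z => ?_
        simp only
        rw [lintegral_mul_const _ (by fun_prop), ← mul_assoc, ← ENNReal.ofReal_mul (by positivity),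
          ← lintegral_sub_left_eq_self _ z]
        simp only [sub_sub_cancel]
        exact mul_le_mul_left (hc a K da z) _
    _ ≤ ENNReal.ofReal (C * K) * ENNReal.ofReal (2 ^ 15 * ∫ v, |h v| * wt v) := by
        rw [lintegral_const_mul _ (by fun_prop)]
        exact mul_le_mul_right (lint_pow_le hh dh (by norm_num)) _
    _ = _ := by
        rw [← ENNReal.ofReal_mul (by positivity)]
        congr 1
        ring

/-- pointwise bound for the increment of the regular function -/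
lemma first_le {f h ψ : E → ℝ} {K : ℝ} (ε : ℝ) (hf : Nice (dd + 60) K f)
    (hψ : ∀ v, |ψ v| ≤ wt v) (p : E × E × S2) :
    |kc ε p * ψ (pv p.1 p.2.1 p.2.2) * (h p.2.1 * (f p.1 - f (pv p.1 p.2.1 p.2.2)))|
      ≤ kx p * (2 ^ 30 * K * ((1 + ‖p.1‖) ^ (dd + 30))⁻¹ * |h p.2.1|) := by
  have hK := hf.nonneg
  have hx := kx_nonneg p
  by_cases hr : |rho p| ≤ 1
  · have e1 : ‖pv p.1 p.2.1 p.2.2 - p.1‖ = |rho p| := norm_pv_sub _ _ _
    have a1 := hf.lip' p.1 (pv p.1 p.2.1 p.2.2) (e1 ▸ hr)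
    rw [e1, abs_sub_comm] at a1
    have a2 : |ψ (pv p.1 p.2.1 p.2.2)| ≤ 2 ^ 30 * (1 + ‖p.1‖) ^ 30 := by
      refine (hψ _).trans ((wt_le_pow _).trans ?_)
      rw [← mul_pow]
      gcongr
      exact wt_le_two_mul (by rw [norm_sub_rev, e1]; exact hr)
    have a3 : (1 + ‖p.1‖) ^ 30 * |f p.1 - f (pv p.1 p.2.1 p.2.2)|
        ≤ K * |rho p| * ((1 + ‖p.1‖) ^ (dd + 30))⁻¹ := by
      rw [← div_eq_mul_inv, le_div_iff₀ (wt_pos _ _)]
      rw [show dd + 60 = 30 + (dd + 30) by omega, pow_add] at a1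
      linarith
    have hk := kc_nonneg ε p
    have hw := wt_pos p.1 (dd + 30)
    rw [abs_mul, abs_mul, abs_mul, abs_of_nonneg hk]
    calc kc ε p * |ψ (pv p.1 p.2.1 p.2.2)| * (|h p.2.1| * |f p.1 - f (pv p.1 p.2.1 p.2.2)|)
        ≤ kc ε p * (2 ^ 30 * (1 + ‖p.1‖) ^ 30) * (|h p.2.1| * |f p.1 - f (pv p.1 p.2.1 p.2.2)|) := by
          gcongr
      _ = kc ε p * 2 ^ 30 * |h p.2.1|
          * ((1 + ‖p.1‖) ^ 30 * |f p.1 - f (pv p.1 p.2.1 p.2.2)|) := by
          generalize (1 + ‖p.1‖) ^ 30 = Z; ring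
      _ ≤ kc ε p * 2 ^ 30 * |h p.2.1| * (K * |rho p| * ((1 + ‖p.1‖) ^ (dd + 30))⁻¹) := by gcongr
      _ = kc ε p * |rho p| * (2 ^ 30 * K * ((1 + ‖p.1‖) ^ (dd + 30))⁻¹ * |h p.2.1|) := by
          generalize ((1 + ‖p.1‖) ^ (dd + 30))⁻¹ = Z; ring
      _ ≤ _ := mul_le_mul_of_nonneg_right (kc_mul_abs_le ε p) (by positivity)
  · rw [kc_eq, if_neg fun h' => hr h'.2, zero_mul, zero_mul, abs_zero]
    have hw := wt_pos p.1 (dd + 30)
    positivity

/-- the term with the increment of the regular function -/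
lemma first_lint {f h ψ : E → ℝ} {K K' : ℝ} (ε : ℝ) (hf : Nice (dd + 60) K f) (hh : Measurable h)
    (dh : Dec (dd + 60) K' h) (mψ : Measurable ψ) (hψ : ∀ v, |ψ v| ≤ wt v) :
    ∫⁻ p, ENNReal.ofReal |kc ε p * ψ p.1 *
        (h (pw p.1 p.2.1 p.2.2) * (f (pv p.1 p.2.1 p.2.2) - f p.1))| ∂mu3
      ≤ ENNReal.ofReal (cA * (2 ^ 30 * K * cJ) * 2 ^ 15 * ∫ v, |h v| * wt v) := by
  have hK := hf.nonneg
  have mf := hf.measurable
  have hA := cA_pos
  have hJ := cJ_nonneg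
  rw [← lintegral_coll _ (by fun_prop)]
  have d1 : Dec (dd + 1 + 29) (2 ^ 30 * K) fun v => 2 ^ 30 * K * ((1 + ‖v‖) ^ (dd + 30))⁻¹ := by
    intro v
    have hw := wt_pos v (dd + 30)
    rw [abs_of_nonneg (by positivity), show dd + 1 + 29 = dd + 30 by omega, mul_left_comm,
      mul_inv_cancel₀ hw.ne', mul_one]
  calc _ ≤ ∫⁻ p, ENNReal.ofReal (kx p) *
        (ENNReal.ofReal (2 ^ 30 * K * ((1 + ‖p.1‖) ^ (dd + 30))⁻¹) * ENNReal.ofReal |h p.2.1|) ∂mu3 := by
        refine lintegral_mono fun p => ?_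
        have hw := wt_pos p.1 (dd + 30)
        simp only [kc_coll]
        simp only [coll, pv_pv, pw_pw]
        rw [← ENNReal.ofReal_mul (by positivity), ← ENNReal.ofReal_mul (kx_nonneg p)]
        exact ENNReal.ofReal_le_ofReal (first_le ε hf hψ p)
    _ ≤ _ := lint_kx_le (a := fun v => ENNReal.ofReal (2 ^ 30 * K * ((1 + ‖v‖) ^ (dd + 30))⁻¹))
        (b := fun w => ENNReal.ofReal |h w|) (by fun_prop) (by fun_prop)
    _ ≤ ENNReal.ofReal cA * (ENNReal.ofReal (2 ^ 30 * K * cJ)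
        * ENNReal.ofReal (2 ^ 15 * ∫ v, |h v| * wt v)) := by
        refine mul_le_mul_right (mul_le_mul' ?_ (lint_pow_le hh dh (by norm_num))) _
        refine le_trans (lintegral_mono fun v => ?_) d1.lint_le
        have hw := wt_pos v (dd + 30)
        simp only
        rw [← ENNReal.ofReal_mul (by positivity), abs_of_nonneg (by positivity)]
    _ = _ := by
        rw [← ENNReal.ofReal_mul (by positivity), ← ENNReal.ofReal_mul hA.le]
        congr 1
        ring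

theorem cross : CrossStmt := by
  obtain ⟨C, hC, hc⟩ := err_le
  refine ⟨dd + 60, fun K => ⟨cA * (2 ^ 30 * K * cJ) * 2 ^ 15 + 2 * (C * K),
    fun f h ψ K' ε hε hf hh dh mψ hψ => ?_⟩⟩
  have hK := hf.nonneg
  have mf := hf.measurable
  have hA := cA_pos
  have hJ := cJ_nonneg
  have df : Dec (dd + 60) K f := hf.1
  have hN : 0 ≤ ∫ v, |h v| * wt v :=
    integral_nonneg fun v => mul_nonneg (abs_nonneg _) (wt_pos' v).le
  have l1 := first_lint ε hf hh dh mψ hψ
  have i1 : Integrable (fun p : E × E × S2 => kc ε p * ψ p.1 *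
      (h (pw p.1 p.2.1 p.2.2) * (f (pv p.1 p.2.1 p.2.2) - f p.1))) mu3 := by
    refine ⟨(by fun_prop : Measurable _).aestronglyMeasurable, ?_⟩
    rw [hasFiniteIntegral_iff_norm]
    exact l1.trans_lt ENNReal.ofReal_lt_top
  have b1 : ∫ p, kc ε p * ψ p.1 *
      (h (pw p.1 p.2.1 p.2.2) * (f (pv p.1 p.2.1 p.2.2) - f p.1)) ∂mu3
      ≤ cA * (2 ^ 30 * K * cJ) * 2 ^ 15 * ∫ v, |h v| * wt v := by
    refine (Real.le_norm_self _).trans ((norm_integral_le_lintegral_norm _).trans ?_)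
    exact ENNReal.toReal_le_of_le_ofReal (by positivity) l1
  have i0 := integrable_pre (measurable_kc ε) (kc_nonneg ε) (kc_le_kx hε) mψ hψ hh mf dh df
  have i2 := integrable_post (measurable_kc ε) (kc_nonneg ε) (kc_le_kx hε) mψ hψ hh mf dh df
  have j0 : Integrable (fun p : E × E × S2 => kc ε p * (ψ p.1 * f p.1 * h p.2.1)) mu3 :=
    i0.congr (ae_of_all _ fun p => by ring)
  have j1 : Integrable (fun p : E × E × S2 =>
      kc ε p * (ψ p.1 * f p.1 * h (pw p.1 p.2.1 p.2.2))) mu3 :=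
    (i2.sub i1).congr (ae_of_all _ fun p => by simp only [Pi.sub_apply]; ring)
  have da : Dec (1 + (dd + 1)) K fun v => ψ v * f v := fun v => by
    refine le_trans ?_ (df v)
    rw [abs_mul, ← mul_assoc]
    refine mul_le_mul_of_nonneg_right ?_ (abs_nonneg _)
    calc (1 + ‖v‖) ^ (1 + (dd + 1)) * |ψ v| ≤ (1 + ‖v‖) ^ (1 + (dd + 1)) * (1 + ‖v‖) ^ 30 :=
          mul_le_mul_of_nonneg_left ((hψ v).trans (wt_le_pow v)) (wt_pos _ _).le
      _ ≤ _ := by
          rw [← pow_add]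
          exact pow_le_pow_right₀ (by linarith [norm_nonneg v]) (by omega)
  have e1 := hc (fun v => ψ v * f v) h K K' (by fun_prop) da hh dh
  have c1 := cancel ε (H := fun q => ψ q.1 * f q.1 * h q.2) (by fun_prop) (integrable_mm ε j0)
    (integrable_mm ε j1) (ne_top_of_le_ne_top ENNReal.ofReal_ne_top e1)
  have e2 := ENNReal.toReal_le_of_le_ofReal (by positivity) e1
  rw [int_mm, int_mm] at c1
  have s : ∫ q, kc ε q * ψ q.1 * inc h f q ∂mu3 = ∫ p, kc ε p * ψ p.1 *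
      (h (pw p.1 p.2.1 p.2.2) * (f (pv p.1 p.2.1 p.2.2) - f p.1)) ∂mu3
      + (∫ p, kc ε p * (ψ p.1 * f p.1 * h (pw p.1 p.2.1 p.2.2)) ∂mu3
        - ∫ p, kc ε p * (ψ p.1 * f p.1 * h p.2.1) ∂mu3) := by
    have j2 : Integrable (fun p : E × E × S2 =>
        kc ε p * (ψ p.1 * f p.1 * h (pw p.1 p.2.1 p.2.2))
          - kc ε p * (ψ p.1 * f p.1 * h p.2.1)) mu3 := j1.sub j0
    rw [← integral_sub j1 j0, ← integral_add i1 j2]
    refine integral_congr_ae (ae_of_all _ fun p => ?_)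
    simp only [inc]
    ring
  rw [s, add_mul]
  simp only at c1 e2
  linarith

end Pool.Agent.BoltzM.Uq
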