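import Pool.Agent.BoltzM.Uq.Vel
import Pool.Agent.BoltzM.Uq.Trans

/-! The uniqueness theorem from the velocity estimate and the transport lemma. -/

set_option autoImplicit false

open MeasureTheory Set Filter Topology

noncomputable section

namespace Pool.Agent.BoltzM.Uq

open Coll Stmt

variable [Dim]

lemma locLip_of_contDiff {f : E → ℝ} (h : ContDiff ℝ 1 f) : LocLip f := fun R => by
  obtain ⟨L, hL⟩ := (isCompact_closedBall (0 : E) (R + 1)).exists_bound_of_continuousOn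
    (h.continuous_fderiv one_ne_zero).continuousOn
  refine ⟨L, fun v v' hv hv' => ?_⟩
  refine (convex_closedBall (0 : E) (R + 1)).norm_image_sub_le_of_norm_fderiv_le
    (fun x _ => h.differentiable one_ne_zero x) hL (mem_closedBall_zero_iff.2 (by linarith))
    (mem_closedBall_zero_iff.2 ?_)
  linarith [norm_sub_norm_le v' v]

/-- solutions without sign and decay -/
structure Sol (B : ℝ → ℝ → ℝ) (T : ℝ) (f : ℝ → E → E → ℝ) : Prop where
  c1 : ContDiffOn ℝ 1 (fun p : ℝ × E × E => f p.1 p.2.1 p.2.2) (Ico 0 T ×ˢ univ)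
  periodic : ∀ t ∈ Ico 0 T, ∀ n x, f t (x + lat n) = f t x
  integrable : ∀ t ∈ Ico 0 T, ∀ x v, Integrable (collInt B (f t x) v) (collMeas dd)
  eqn : ∀ t ∈ Ico 0 T, ∀ x v,
    derivWithin (fun τ => f τ x v) (Ico 0 T) t + fderiv ℝ (fun y => f t y v) x v = Q B (f t x) v

variable {B : ℝ → ℝ → ℝ} {T : ℝ} {f : ℝ → E → E → ℝ}

lemma sol_of (h : ClassicalSol B T f) : Sol B T f := ⟨h.c1, h.periodic, h.integrable, h.eqn⟩

/-- the derivative in all variables -/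
def DD (T : ℝ) (f : ℝ → E → E → ℝ) (p : ℝ × E × E) : ℝ × E × E →L[ℝ] ℝ :=
  fderivWithin ℝ (fun p : ℝ × E × E => f p.1 p.2.1 p.2.2) (Ico 0 T ×ˢ univ) p

lemma udo (T : ℝ) : UniqueDiffOn ℝ (Ico 0 T ×ˢ (univ : Set (E × E))) :=
  (uniqueDiffOn_Ico 0 T).prod uniqueDiffOn_univ

lemma hasDD (h : Sol B T f) {t : ℝ} (ht : t ∈ Ico 0 T) (x v : E) :
    HasFDerivWithinAt (fun p : ℝ × E × E => f p.1 p.2.1 p.2.2) (DD T f (t, x, v))
      (Ico 0 T ×ˢ univ) (t, x, v) :=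
  (h.c1.differentiableOn one_ne_zero _ (mk_mem_prod ht trivial)).hasFDerivWithinAt

lemma hasChar (h : Sol B T f) {t : ℝ} (ht : t ∈ Ico 0 T) (x y v : E) :
    HasDerivWithinAt (fun τ => f τ (x + τ • y) v) (DD T f (t, x + t • y, v) (1, y, 0))
      (Ico 0 T) t := by
  have h1 : HasDerivAt (fun τ : ℝ => (τ, x + τ • y, v)) (1, y, 0) t :=
    (hasDerivAt_id t).prodMk
      ((by simpa using ((hasDerivAt_id t).smul_const y).const_add x :
        HasDerivAt (fun τ : ℝ => x + τ • y) y t).prodMk (hasDerivAt_const t v))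
  exact (hasDD h ht (x + t • y) v).comp_hasDerivWithinAt t h1.hasDerivWithinAt
    fun τ hτ => mk_mem_prod hτ (mem_univ _)

lemma Q_eq (h : Sol B T f) {t : ℝ} (ht : t ∈ Ico 0 T) (x v : E) :
    Q B (f t x) v = DD T f (t, x, v) (1, v, 0) := by
  have h1 := (hasChar h ht x 0 v).derivWithin (uniqueDiffOn_Ico 0 T t ht)
  simp only [smul_zero, add_zero] at h1
  have h2 : HasFDerivAt (fun y : E => (t, y, v))
      ((0 : E →L[ℝ] ℝ).prod ((ContinuousLinearMap.id ℝ E).prod 0)) x :=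
    (hasFDerivAt_const t x).prodMk ((hasFDerivAt_id x).prodMk (hasFDerivAt_const v x))
  have h3 := (hasFDerivWithinAt_univ.1 ((hasDD h ht x v).comp x h2.hasFDerivWithinAt
    (s := univ) fun y _ => mk_mem_prod ht (mem_univ _))).fderiv
  rw [← h.eqn t ht x v, h1, show (fun y => f t y v) =
    (fun p : ℝ × E × E => f p.1 p.2.1 p.2.2) ∘ fun y : E => (t, y, v) from rfl, h3,
    ContinuousLinearMap.comp_apply, ← map_add]
  simp

lemma contQ (h : Sol B T f) :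
    ContinuousOn (fun p : ℝ × E × E => Q B (f p.1 p.2.1) p.2.2) (Ico 0 T ×ˢ univ) :=
  ((h.c1.continuousOn_fderivWithin (udo T) le_rfl).clm_apply
    (by fun_prop : Continuous fun p : ℝ × E × E => ((1 : ℝ), p.2.2, (0 : E))).continuousOn).congr
    fun p hp => Q_eq h hp.1 p.2.1 p.2.2

lemma contDiff_v (h : Sol B T f) {t : ℝ} (ht : t ∈ Ico 0 T) (x : E) :
    ContDiff ℝ 1 (f t x) :=
  h.c1.comp_contDiff (f := fun v : E => (t, x, v)) (by fun_prop) fun _ => mk_mem_prod ht trivial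

lemma dec_of (h : ClassicalSol B T f) {t0 : ℝ} (h0 : t0 < T) (p : ℕ) :
    ∃ K, ∀ t ∈ Icc 0 t0, ∀ x, Dec p K (f t x) := by
  obtain ⟨C, hC⟩ := h.decay t0 h0 ((p + 1 : ℕ) : ℝ) (by positivity)
  refine ⟨2 ^ (p + 1) * C, fun t ht x => Dec.mono (fun v => ?_) (Nat.le_succ p)⟩
  have h1 := hC t ht x v
  have h2 := h.nonneg t ⟨ht.1, ht.2.trans_lt h0⟩ x v
  have h3 : 0 < √(1 + ‖v‖ ^ 2) := by positivity
  rw [Real.rpow_neg h3.le, Real.rpow_natCast, ← div_eq_mul_inv, le_div_iff₀ (by positivity)] at h1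
  have h4 : 1 + ‖v‖ ≤ 2 * √(1 + ‖v‖ ^ 2) := by
    have a1 : 1 ≤ √(1 + ‖v‖ ^ 2) := Real.one_le_sqrt.2 (by nlinarith [sq_nonneg ‖v‖])
    have a2 : ‖v‖ ≤ √(1 + ‖v‖ ^ 2) := Real.le_sqrt_of_sq_le (by linarith)
    linarith
  rw [abs_of_nonneg h2]
  calc _ ≤ (2 * √(1 + ‖v‖ ^ 2)) ^ (p + 1) * f t x v := by gcongr
    _ = 2 ^ (p + 1) * (f t x v * √(1 + ‖v‖ ^ 2) ^ (p + 1)) := by ring
    _ ≤ _ := by gcongr

/-- the time cut to an interval -/
def cl (t0 t : ℝ) : ℝ := max 0 (min t t0)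

omit [Dim] in
@[fun_prop] lemma continuous_cl (t0 : ℝ) : Continuous (cl t0) := by unfold cl; fun_prop

omit [Dim] in
lemma cl_mem {t0 : ℝ} (h : 0 ≤ t0) (t : ℝ) : cl t0 t ∈ Icc 0 t0 :=
  ⟨le_max_left _ _, max_le h (min_le_right _ _)⟩

omit [Dim] in
lemma cl_eq {t0 t : ℝ} (ht : t ∈ Icc 0 t0) : cl t0 t = t := by
  simp only [cl, min_eq_left ht.2, max_eq_right ht.1]

lemma cont_cl (h : Sol B T f) {t0 : ℝ} (h0 : t0 ∈ Ico 0 T) :
    Continuous fun q : ℝ × E × E => f (cl t0 q.1) q.2.1 q.2.2 :=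
  h.c1.continuousOn.comp_continuous (f := fun q : ℝ × E × E => (cl t0 q.1, q.2)) (by fun_prop)
    fun _ => mk_mem_prod (Icc_subset_Ico_right h0.2 (cl_mem h0.1 _)) trivial

lemma contQ_cl (h : Sol B T f) {t0 : ℝ} (h0 : t0 ∈ Ico 0 T) :
    Continuous fun q : ℝ × E × E => Q B (f (cl t0 q.1) q.2.1) q.2.2 :=
  (contQ h).comp_continuous (f := fun q : ℝ × E × E => (cl t0 q.1, q.2)) (by fun_prop)
    fun _ => mk_mem_prod (Icc_subset_Ico_right h0.2 (cl_mem h0.1 _)) trivial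

lemma per_cl (h : Sol B T f) {t0 : ℝ} (h0 : t0 ∈ Ico 0 T) (t : ℝ) (n : Ix → ℤ) (x : E) :
    f (cl t0 t) (x + lat n) = f (cl t0 t) x :=
  h.periodic _ (Icc_subset_Ico_right h0.2 (cl_mem h0.1 _)) n x

lemma char_cl (h : Sol B T f) {t0 : ℝ} (h0 : t0 < T) (x v : E) {t : ℝ} (ht : t ∈ Ioo 0 t0) :
    HasDerivAt (fun τ => f (cl t0 τ) (x + τ • v) v) (Q B (f (cl t0 t) (x + t • v)) v) t := by
  have ht' : t ∈ Ico 0 T := ⟨ht.1.le, ht.2.trans h0⟩
  have a1 := (hasChar h ht' x v v).hasDerivAt (Ico_mem_nhds ht.1 ht'.2)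
  rw [← Q_eq h ht'] at a1
  rw [cl_eq (Ioo_subset_Icc_self ht)]
  refine a1.congr_of_eventuallyEq ?_
  filter_upwards [Icc_mem_nhds ht.1 ht.2] with τ hτ
  rw [cl_eq hτ]

/-- U7: uniqueness -/
theorem uniq_of (hV : VelStmt) : ∃ p : ℕ, ∀ (T : ℝ) (f : ℝ → E → E → ℝ),
    ClassicalSol (Bk dd) T f → (∀ T' < T, ∃ K, ∀ t ∈ Icc 0 T', ∀ x, Nice p K (f t x)) →
    Unique (Bk dd) T f := by
  obtain ⟨p, hV⟩ := hV
  refine ⟨p + (dd + 31), fun T f hf hs T' g hg h0 t0 ht0 => ?_⟩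
  have h1 : t0 < T := ht0.2.trans_le (min_le_left _ _)
  have h2 : t0 < T' := ht0.2.trans_le (min_le_right _ _)
  obtain ⟨K1, n1⟩ := hs t0 h1
  obtain ⟨K2, n2⟩ := dec_of hg h2 (p + (dd + 31))
  obtain ⟨C, hC, hV⟩ := hV (max K1 K2)
  have s1 : Icc 0 t0 ⊆ Ico 0 T := Icc_subset_Ico_right h1
  have s2 : Icc 0 t0 ⊆ Ico 0 T' := Icc_subset_Ico_right h2
  have sf := sol_of hf
  have sg' := sol_of hg
  have key := trans (h := fun t x v => f (cl t0 t) x v - g (cl t0 t) x v)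
    (r := fun t x v => Q (Bk dd) (f (cl t0 t) x) v - Q (Bk dd) (g (cl t0 t) x) v) (t0 := t0)
    (K := K1 + K2) hC ((cont_cl sf ⟨ht0.1, h1⟩).sub (cont_cl sg' ⟨ht0.1, h2⟩))
    ((contQ_cl sf ⟨ht0.1, h1⟩).sub (contQ_cl sg' ⟨ht0.1, h2⟩))
    (fun t n x => by simp only [per_cl sf ⟨ht0.1, h1⟩, per_cl sg' ⟨ht0.1, h2⟩])
    (fun t n x => by simp only [per_cl sf ⟨ht0.1, h1⟩, per_cl sg' ⟨ht0.1, h2⟩])
    (fun x v => by simp only [cl_eq ⟨le_rfl, ht0.1⟩, h0, sub_self])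
    (fun x v t ht => by
      have a1 := ((char_cl sf h1 x v ht).fun_sub (char_cl sg' h2 x v ht)).fun_pow 2
      refine a1.congr_deriv ?_
      norm_num)
    (fun t ht x => by
      simp only [cl_eq ht]
      exact (Dec.sub (n1 t ht x).1 (n2 t ht x)).mono (by omega))
    (fun t ht x R hR => by
      have m1 := (contDiff_v sf (s1 ht) x).continuous.measurable
      have m2 := (contDiff_v sg' (s2 ht) x).continuous.measurable
      have q1 := fun v => sig _ v m1 (hf.integrable t (s1 ht) x v)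
      have q2 := fun v => sig _ v m2 (hg.integrable t (s2 ht) x v)
      simp only [cl_eq ht, fun v => (q1 v).2, fun v => (q2 v).2]
      exact hV _ _ R hR (((n1 t ht x).mono (by omega)).mono_const (le_max_left _ _))
        (fun v => (((n2 t ht x).mono (by omega : p ≤ _)) v).trans (le_max_right _ _)) m2
        (locLip_of_contDiff (contDiff_v sg' (s2 ht) x)) (hf.nonneg t (s1 ht) x)
        (hg.nonneg t (s2 ht) x) (fun v => (q1 v).1) fun v => (q2 v).1)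
  funext x v
  have := key t0 ⟨ht0.1, le_rfl⟩ x v
  simp only [cl_eq ⟨ht0.1, le_rfl⟩] at this
  linarith

end Pool.Agent.BoltzM.Uq
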