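import Pool.Agent.BoltzM.Uq.Basic
import Pool.Agent.BoltzM.C3.Bounds

/-! Removal of the truncation of short jumps. -/

set_option autoImplicit false

open MeasureTheory Set Filter Topology
open scoped ENNReal

noncomputable section

namespace Pool.Agent.BoltzM.Uq

open Coll C3

variable [Dim]

namespace Lim

lemma marg0v (ε : ℝ) (v : E) {G : E → ℝ≥0∞} (hG : Measurable G) :
    ∫⁻ q, ENNReal.ofReal (kc ε (v, q)) * G q.1 ∂mu2 = ∫⁻ u, k0 ε u * G (v - u) := by
  rw [lintegral_mu2 _ (by fun_prop), ← lintegral_sub_left_eq_self _ v]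
  refine lintegral_congr fun u => ?_
  simp only [kc, rho, sub_sub_cancel]
  rw [lintegral_mul_const _ (by fun_prop), k0]

lemma marg1v (ε : ℝ) (v : E) {G : E → ℝ≥0∞} (hG : Measurable G) :
    ∫⁻ q, ENNReal.ofReal (kc ε (v, q)) * G (pw v q.1 q.2) ∂mu2
      = ∫⁻ u, k1 ε ‖u‖ * G (v - u) := by
  rw [lintegral_mu2' _ (by fun_prop)]
  have hk : Measurable fun q : ℝ × E =>
      ENNReal.ofReal (2 * (q.1 ^ 2 + ‖q.2‖ ^ 2) ^ (3 / 2 : ℝ) * phi ε q.1) :=
    ENNReal.measurable_ofReal.comp (Measurable.mul (Measurable.mul measurable_const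
      (Measurable.pow_const (by fun_prop) _)) (by fun_prop))
  have hΦ : Measurable (Function.uncurry fun (t : ℝ) (y : E) =>
      ENNReal.ofReal (2 * (t ^ 2 + ‖y‖ ^ 2) ^ (3 / 2 : ℝ) * phi ε t) * G (v - y)) :=
    hk.mul (hG.comp (by fun_prop))
  have h4 := Geo.bp _ hΦ
  refine Eq.trans ?_ (h4.trans ?_)
  · refine lintegral_congr fun o => ?_
    rw [← lintegral_sub_left_eq_self _ v]
    refine lintegral_congr fun u => ?_
    have : pw v (v - u) o = v - Geo.perp o u := by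
      simp only [pw, Geo.perp, sub_sub_cancel]; abel
    simp only [kc, rho, sub_sub_cancel, this]
    rw [← Geo.norm_sq_eq_perp (norm_coe o), sq_rpow (norm_nonneg u)]
  · refine lintegral_congr fun y => ?_
    have hk2 : Measurable fun t : ℝ =>
        ENNReal.ofReal (2 * (t ^ 2 + ‖y‖ ^ 2) ^ (3 / 2 : ℝ) * phi ε t) :=
      hk.comp (f := fun t : ℝ => (t, y)) (by fun_prop)
    rw [lintegral_mul_const _ hk2, k1, mul_assoc]

lemma auxv {a b : E → ℝ≥0∞} (hab : ∀ u, a u ≤ b u + cbar ‖u‖) (v : E) {G : E → ℝ≥0∞}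
    (hG : Measurable G) : ∫⁻ u, a u * G (v - u)
      ≤ (∫⁻ u, b u * G (v - u)) + ∫⁻ u, cbar ‖u‖ * G (v - u) := by
  rw [← lintegral_add_right _ (by fun_prop)]
  refine lintegral_mono fun u => ?_
  simp only
  rw [← add_mul]
  exact mul_le_mul_left (hab u) _

/-- the cancellation lemma at a fixed velocity -/
lemma cancelv (ε : ℝ) (v : E) {f : E → ℝ} (hf : Measurable f)
    (h0 : Integrable (fun q : E × S2 => kc ε (v, q) * f q.1) mu2)
    (h1 : Integrable (fun q : E × S2 => kc ε (v, q) * f (pw v q.1 q.2)) mu2) {e : ℝ} (he0 : 0 ≤ e)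
    (he : ∫⁻ u, cbar ‖u‖ * ENNReal.ofReal |f (v - u)| ≤ ENNReal.ofReal e) :
    ∫ q, kc ε (v, q) * f (pw v q.1 q.2) ∂mu2 - ∫ q, kc ε (v, q) * f q.1 ∂mu2 ≤ 2 * e := by
  have hp : Measurable fun z => ENNReal.ofReal (f z) := by fun_prop
  have hn : Measurable fun z => ENNReal.ofReal (-f z) := by fun_prop
  rw [integral_eq_lintegral_pos_part_sub_lintegral_neg_part h0,
    integral_eq_lintegral_pos_part_sub_lintegral_neg_part h1]
  have a1 : ∫⁻ q, ENNReal.ofReal (kc ε (v, q) * f (pw v q.1 q.2)) ∂mu2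
      ≤ ∫⁻ q, ENNReal.ofReal (kc ε (v, q) * f q.1) ∂mu2 + ENNReal.ofReal e := by
    simp only [ENNReal.ofReal_mul (kc_nonneg ε _)]
    rw [marg1v ε v hp, marg0v ε v hp]
    refine (auxv (k1_le ε) v hp).trans (add_le_add_right (le_trans ?_ he) _)
    exact lintegral_mono fun u => mul_le_mul_right (ENNReal.ofReal_le_ofReal (le_abs_self _)) _
  have a2 : ∫⁻ q, ENNReal.ofReal (-(kc ε (v, q) * f q.1)) ∂mu2
      ≤ ∫⁻ q, ENNReal.ofReal (-(kc ε (v, q) * f (pw v q.1 q.2))) ∂mu2 + ENNReal.ofReal e := by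
    simp only [← mul_neg, ENNReal.ofReal_mul (kc_nonneg ε _)]
    rw [marg1v ε v hn, marg0v ε v hn]
    refine (auxv (k0_le ε) v hn).trans (add_le_add_right (le_trans ?_ he) _)
    exact lintegral_mono fun u => mul_le_mul_right (ENNReal.ofReal_le_ofReal (neg_le_abs _)) _
  have hE : ENNReal.ofReal e ≠ ⊤ := ENNReal.ofReal_ne_top
  have b1 := ENNReal.toReal_mono (ENNReal.add_ne_top.2 ⟨h0.lintegral_lt_top.ne, hE⟩) a1
  rw [ENNReal.toReal_add h0.lintegral_lt_top.ne hE, ENNReal.toReal_ofReal he0] at b1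
  have c1 := h1.neg.lintegral_lt_top.ne
  simp only [Pi.neg_apply] at c1
  have b2 := ENNReal.toReal_mono (ENNReal.add_ne_top.2 ⟨c1, hE⟩) a2
  rw [ENNReal.toReal_add c1 hE, ENNReal.toReal_ofReal he0] at b2
  linarith

lemma conv {f : E → ℝ} {K : ℝ} (hf : Dec (1 + (dd + 1)) K f) (R : ℝ) :
    ∃ e : ℝ, 0 ≤ e ∧ ∀ v : E, ‖v‖ ≤ R →
      ∫⁻ u, cbar ‖u‖ * ENNReal.ofReal |f (v - u)| ≤ ENNReal.ofReal e := by
  have hcb := cb_pos
  have hK := hf.nonneg
  set A : ℝ := cb * K * (1 + R) ^ 1 with hA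
  set T : ℝ≥0∞ := ENNReal.ofReal A * ((∫⁻ z, ENNReal.ofReal (jap z)) + ∫⁻ u, newt u) with hT
  have hT' : T ≠ ⊤ :=
    ENNReal.mul_ne_top ENNReal.ofReal_ne_top (ENNReal.add_ne_top.2 ⟨lint_jap, lint_newt⟩)
  refine ⟨T.toReal, ENNReal.toReal_nonneg, fun v hv => ?_⟩
  have hR : 0 ≤ R := (norm_nonneg v).trans hv
  have h1 : ∀ u : E, cbar ‖u‖ * ENNReal.ofReal |f (v - u)|
      ≤ ENNReal.ofReal A * (ENNReal.ofReal (jap (v - u)) + newt u) := by
    intro u
    have h2 : (1 + ‖u‖) ^ 1 * |f (v - u)| ≤ (1 + R) ^ 1 * (K * jap (v - u)) := by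
      have h3 : 1 + ‖u‖ ≤ (1 + R) * (1 + ‖v - u‖) := by
        refine le_trans (by simpa using one_add_sub_le v (v - u)) ?_
        gcongr
      calc (1 + ‖u‖) ^ 1 * |f (v - u)| ≤ ((1 + R) * (1 + ‖v - u‖)) ^ 1 * |f (v - u)| := by gcongr
        _ = (1 + R) ^ 1 * ((1 + ‖v - u‖) ^ 1 * |f (v - u)|) := by rw [mul_pow, mul_assoc]
        _ ≤ _ := mul_le_mul_of_nonneg_left (le_jap (n := 1) (hf _)) (by positivity)
    have hj : jap (v - u) ≤ 1 := by
      unfold jap
      exact inv_le_one_of_one_le₀ (one_le_pow₀ (by linarith [norm_nonneg (v - u)]))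
    have hj0 := jap_pos (v - u)
    have h4 : cb * (1 + ‖u‖) ^ 1 / ‖u‖ * |f (v - u)| ≤ A * (jap (v - u) * ‖u‖⁻¹) := by
      calc cb * (1 + ‖u‖) ^ 1 / ‖u‖ * |f (v - u)|
          = cb * ‖u‖⁻¹ * ((1 + ‖u‖) ^ 1 * |f (v - u)|) := by
            generalize (1 + ‖u‖) ^ 1 = Z; ring
        _ ≤ cb * ‖u‖⁻¹ * ((1 + R) ^ 1 * (K * jap (v - u))) := by gcongr
        _ = _ := by rw [hA]; generalize (1 + R) ^ 1 = Z; ring
    rw [cbar, ← ENNReal.ofReal_mul (by positivity)]
    refine (ENNReal.ofReal_le_ofReal h4).trans ?_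
    rw [ENNReal.ofReal_mul (by positivity)]
    refine mul_le_mul_right ?_ _
    by_cases hu : u ∈ Metric.ball (0 : E) 1
    · rw [newt, indicator_of_mem hu]
      exact le_add_left (ENNReal.ofReal_le_ofReal (mul_le_of_le_one_left (by positivity) hj))
    · have : 1 ≤ ‖u‖ := by simpa using hu
      exact le_add_right (ENNReal.ofReal_le_ofReal
        (mul_le_of_le_one_right hj0.le (inv_le_one_of_one_le₀ this)))
  have hm : Measurable fun u : E => ENNReal.ofReal (jap (v - u)) := by fun_prop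
  refine (lintegral_mono h1).trans (le_of_eq ?_)
  rw [lintegral_const_mul' _ _ ENNReal.ofReal_ne_top, lintegral_add_left hm,
    lintegral_sub_left_eq_self (fun z => ENNReal.ofReal (jap z)) v, ENNReal.ofReal_toReal hT']

/-- the decaying factor -/
def dk (w : E) : ℝ := ((1 + ‖w‖) ^ (dd + 30))⁻¹

lemma dk_pos (w : E) : 0 < dk w := by unfold dk; positivity

/-- the dominating function -/
def G (v : E) (q : E × S2) : ℝ := kx (v, q) * dk q.1

lemma G_nonneg (v : E) (q : E × S2) : 0 ≤ G v q := mul_nonneg (kx_nonneg _) (dk_pos _).le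

lemma measurable_G (v : E) : Measurable (G v) := by unfold G dk; fun_prop

lemma lint_G (v : E) : ∫⁻ q, ENNReal.ofReal (G v q) ∂mu2
    ≤ ENNReal.ofReal (cW * (1 + ‖v‖) ^ 29) := by
  have h := lintegral_ker_min_le (a := dk) (Ka := 1) (by unfold dk; fun_prop) (fun w => by
    rw [abs_of_pos (dk_pos w), dk, mul_inv_cancel₀ (wt_pos w _).ne']) v
  simp only [abs_of_pos (dk_pos _)] at h
  refine le_trans h (ENNReal.ofReal_le_ofReal ?_)
  rw [mul_one]
  exact mul_le_mul_of_nonneg_left (wt_rpow_le v) cW_pos.le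

lemma integrable_G (v : E) : Integrable (G v) mu2 := by
  refine ⟨(measurable_G v).aestronglyMeasurable, ?_⟩
  rw [hasFiniteIntegral_iff_ofReal (ae_of_all _ (G_nonneg v))]
  exact (lint_G v).trans_lt ENNReal.ofReal_lt_top

lemma int_G (v : E) : ∫ q, G v q ∂mu2 ≤ cW * (1 + ‖v‖) ^ 29 := by
  have := cW_pos
  rw [← ENNReal.ofReal_le_ofReal_iff (by positivity),
    ofReal_integral_eq_lintegral_ofReal (integrable_G v) (ae_of_all _ (G_nonneg v))]
  exact lint_G v

variable {f : E → ℝ} {K : ℝ}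

lemma abs_le_dk (hf : Dec (dd + 30) K f) (w : E) : |f w| ≤ K * dk w := by
  rw [dk, ← div_eq_mul_inv, le_div_iff₀' (wt_pos w _)]; exact hf w

lemma abs_le_K (hf : Dec (dd + 30) K f) (w : E) : |f w| ≤ K :=
  (le_mul_of_one_le_left (abs_nonneg _) (one_le_wt w _)).trans (hf w)

lemma near_le (hf : Dec (dd + 30) K f) {w w' : E} (h : ‖w' - w‖ ≤ 1) :
    |f w'| ≤ 2 ^ (dd + 30) * K * dk w := by
  rw [dk, ← div_eq_mul_inv, le_div_iff₀' (wt_pos w _)]
  calc (1 + ‖w‖) ^ (dd + 30) * |f w'| ≤ (2 * (1 + ‖w'‖)) ^ (dd + 30) * |f w'| := by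
        gcongr; exact wt_le_two_mul h
    _ = 2 ^ (dd + 30) * ((1 + ‖w'‖) ^ (dd + 30) * |f w'|) := by rw [mul_pow, mul_assoc]
    _ ≤ _ := by gcongr; exact hf _

lemma inc_le (hf : Dec (dd + 30) K f) (p : E × E × S2) :
    |inc f f p| ≤ 2 * (K * K) * dk p.2.1 := by
  obtain ⟨v, w, o⟩ := p
  have hK := hf.nonneg
  have a1 : |f (pw v w o)| * |f (pv v w o)| ≤ K * K * dk w := by
    have h1 := wt_le_coll w v o
    rw [pv_swap v w, pw_swap v w] at h1
    rw [dk, ← div_eq_mul_inv, le_div_iff₀' (wt_pos w _)]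
    calc (1 + ‖w‖) ^ (dd + 30) * (|f (pw v w o)| * |f (pv v w o)|)
        ≤ ((1 + ‖pw v w o‖) * (1 + ‖pv v w o‖)) ^ (dd + 30)
          * (|f (pw v w o)| * |f (pv v w o)|) := by gcongr
      _ = ((1 + ‖pw v w o‖) ^ (dd + 30) * |f (pw v w o)|)
          * ((1 + ‖pv v w o‖) ^ (dd + 30) * |f (pv v w o)|) := by rw [mul_pow]; ring
      _ ≤ _ := mul_le_mul (hf _) (hf _) (by positivity) hK
  have a2 : |f w| * |f v| ≤ K * dk w * K :=
    mul_le_mul (abs_le_dk hf w) (abs_le_K hf v) (abs_nonneg _) (mul_nonneg hK (dk_pos w).le)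
  have a3 := abs_sub (f (pw v w o) * f (pv v w o)) (f w * f v)
  rw [abs_mul, abs_mul] at a3
  simp only [inc]
  linarith

lemma kc_post_le (hf : Dec (dd + 30) K f) (ε : ℝ) (p : E × E × S2) :
    kc ε p * |f (pw p.1 p.2.1 p.2.2)| ≤ kc ε p * (2 ^ (dd + 30) * K * dk p.2.1) := by
  rw [kc_eq]
  split_ifs with h
  · exact mul_le_mul_of_nonneg_left (near_le hf ((norm_pw_sub _ _ _).trans_le h.2)) (ker3_nonneg p)
  · simp

/-- the truncated operator -/
def J (ε : ℝ) (f : E → ℝ) (v : E) : ℝ := ∫ q, ke ε (v, q) * inc f f (v, q) ∂mu2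

lemma J_le (hm : Measurable f) (hf : Dec (dd + 30) K f) (hL : LocLip f) (R : ℝ) :
    ∃ M : ℝ, 0 ≤ M ∧ ∀ v : E, ‖v‖ ≤ R → ∀ ε : ℝ, 0 < ε → ε ≤ 1 → |J ε f v| ≤ M := by
  obtain ⟨L0, hL0⟩ := hL R
  obtain ⟨e, he0, he⟩ := conv (hf.mono (by omega)) R
  have hK := hf.nonneg
  have hW := cW_pos
  set L := max L0 0 with hLd
  have hL1 : 0 ≤ L := le_max_right _ _
  set c : ℝ := 2 * (K * K) + L * (2 ^ (dd + 30) * K) with hc
  have hc0 : 0 ≤ c := by positivity
  refine ⟨c * (cW * (1 + |R|) ^ 29) + K * (2 * e), by positivity, fun v hv ε hε hε1 => ?_⟩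
  set A : E × S2 → ℝ := fun q => kf (v, q) * inc f f (v, q)
    + kc ε (v, q) * (f (pw v q.1 q.2) * (f (pv v q.1 q.2) - f v)) with hA
  have hAm : Measurable A := by
    have := measurable_inc hm hm
    fun_prop
  have hAle : ∀ q, |A q| ≤ c * G v q := by
    intro q
    have hd := (dk_pos q.1).le
    have a1 : |kf (v, q) * inc f f (v, q)| ≤ kx (v, q) * (2 * (K * K) * dk q.1) := by
      rw [abs_mul, abs_of_nonneg (kf_nonneg _)]
      exact mul_le_mul (kf_le _) (inc_le hf _) (abs_nonneg _) (kx_nonneg _)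
    have a2 : |kc ε (v, q) * (f (pw v q.1 q.2) * (f (pv v q.1 q.2) - f v))|
        ≤ kx (v, q) * (L * (2 ^ (dd + 30) * K * dk q.1)) := by
      by_cases h : |rho (v, q)| ≤ 1
      · have e1 : ‖pv v q.1 q.2 - v‖ = |rho (v, q)| := norm_pv_sub _ _ _
        have b1 : |f (pv v q.1 q.2) - f v| ≤ L * |rho (v, q)| := by
          refine (hL0 v _ hv (e1.trans_le h)).trans ?_
          rw [e1]
          exact mul_le_mul_of_nonneg_right (le_max_left _ _) (abs_nonneg _)
        have b0 := kc_nonneg ε (v, q)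
        rw [abs_mul, abs_mul, abs_of_nonneg b0, ← mul_assoc]
        calc _ ≤ kc ε (v, q) * (2 ^ (dd + 30) * K * dk q.1) * (L * |rho (v, q)|) :=
              mul_le_mul (kc_post_le hf ε (v, q)) b1 (abs_nonneg _) (by positivity)
          _ = kc ε (v, q) * |rho (v, q)| * (L * (2 ^ (dd + 30) * K * dk q.1)) := by ring
          _ ≤ _ := mul_le_mul_of_nonneg_right (kc_mul_abs_le ε _) (by positivity)
      · rw [kc_eq, if_neg (fun h' => h h'.2), zero_mul, abs_zero]
        exact mul_nonneg (kx_nonneg _) (by positivity)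
    refine (abs_add_le _ _).trans ((add_le_add a1 a2).trans (le_of_eq ?_))
    rw [hc, G]; ring
  have hAi : Integrable A mu2 :=
    ((integrable_G v).const_mul c).mono' hAm.aestronglyMeasurable (ae_of_all _ hAle)
  have h0 : Integrable (fun q : E × S2 => kc ε (v, q) * f q.1) mu2 := by
    refine ((integrable_G v).const_mul (ε⁻¹ * K)).mono'
      (Measurable.aestronglyMeasurable (by fun_prop)) (ae_of_all _ fun q => ?_)
    rw [Real.norm_eq_abs, abs_mul, abs_of_nonneg (kc_nonneg _ _)]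
    refine (mul_le_mul (kc_le_kx hε _) (abs_le_dk hf _) (abs_nonneg _)
      (mul_nonneg (by positivity) (kx_nonneg _))).trans (le_of_eq ?_)
    rw [G]; ring
  have h1 : Integrable (fun q : E × S2 => kc ε (v, q) * f (pw v q.1 q.2)) mu2 := by
    refine ((integrable_G v).const_mul (ε⁻¹ * (2 ^ (dd + 30) * K))).mono'
      (Measurable.aestronglyMeasurable (by fun_prop)) (ae_of_all _ fun q => ?_)
    have hd := (dk_pos q.1).le
    rw [Real.norm_eq_abs, abs_mul, abs_of_nonneg (kc_nonneg _ _)]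
    refine ((kc_post_le hf ε (v, q)).trans (mul_le_mul_of_nonneg_right (kc_le_kx hε _)
      (by positivity))).trans (le_of_eq ?_)
    rw [G]; ring
  have c1 := cancelv ε v hm h0 h1 he0 (he v hv)
  have c2 := cancelv ε v (f := fun z => -f z) hm.neg (by simp only [mul_neg]; exact h0.neg)
    (by simp only [mul_neg]; exact h1.neg) he0 (by simpa only [abs_neg] using he v hv)
  simp only [mul_neg, integral_neg] at c2
  have e1 : J ε f v = ∫ q, A q ∂mu2 + f v *
      (∫ q, kc ε (v, q) * f (pw v q.1 q.2) ∂mu2 - ∫ q, kc ε (v, q) * f q.1 ∂mu2) := by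
    have h2 : Integrable (fun q : E × S2 =>
        f v * (kc ε (v, q) * f (pw v q.1 q.2) - kc ε (v, q) * f q.1)) mu2 :=
      (h1.sub h0).const_mul _
    rw [← integral_sub h1 h0, ← integral_const_mul, ← integral_add hAi h2]
    refine integral_congr_ae (ae_of_all _ fun q => ?_)
    simp only [hA, ke_eq hε1, inc]
    ring
  have d1 : |∫ q, A q ∂mu2| ≤ c * (cW * (1 + |R|) ^ 29) := by
    refine (norm_integral_le_of_norm_le (f := A) ((integrable_G v).const_mul c)
      (ae_of_all _ hAle)).trans ?_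
    rw [integral_const_mul]
    refine mul_le_mul_of_nonneg_left ((int_G v).trans ?_) hc0
    have := hv.trans (le_abs_self R)
    gcongr
  rw [e1]
  refine (abs_add_le _ _).trans (add_le_add d1 ?_)
  rw [abs_mul]
  exact mul_le_mul (abs_le_K hf v) (abs_le.2 ⟨by linarith, c1⟩) (abs_nonneg _) hK

lemma J_tendsto (hm : Measurable f) {v : E} (hi : Integrable (cO f v) mu2) :
    Tendsto (fun ε => J ε f v) (𝓝[>] 0) (𝓝 (QO f v)) := by
  have hinc := measurable_inc hm hm
  refine tendsto_integral_filter_of_dominated_convergence (fun q => ‖cO f v q‖)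
    (Eventually.of_forall fun ε => Measurable.aestronglyMeasurable (by fun_prop))
    (Eventually.of_forall fun ε => ae_of_all _ fun q => ?_) hi.norm (ae_of_all _ fun q => ?_)
  · simp only [cO, ke]
    split_ifs
    · exact le_rfl
    · simp only [zero_mul, norm_zero, norm_nonneg]
  · refine tendsto_const_nhds.congr' ?_
    by_cases h : rho (v, q) = 0
    · have h1 : ker3 (v, q) = 0 := by
        have h2 : ker3 (v, q) = 2 * ‖v - q.1‖ ^ (3 : ℝ) * |rho (v, q)| ^ (-(101 / 100) : ℝ) := rfl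
        rw [h2, h, abs_zero, Real.zero_rpow (by norm_num), mul_zero]
      exact Eventually.of_forall fun ε => by simp only [cO, ke, h1, ite_self]
    · filter_upwards [Ioc_mem_nhdsGT (abs_pos.2 h)] with ε hε
      simp only [cO, ke, if_pos hε.2]

end Lim

open Lim in
/-- U4: removal of the truncation -/
theorem lim : LimStmt := by
  refine ⟨dd + 60, fun f ψ K R hm hf hL hi hψ h1 h2 => ?_⟩
  obtain ⟨M, hM0, hM⟩ := J_le hm (hf.mono (by omega)) hL R
  have hinc := measurable_inc hm hm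
  have hev : ∀ᶠ ε in 𝓝[>] (0 : ℝ), ε ∈ Ioc (0 : ℝ) 1 := Ioc_mem_nhdsGT one_pos
  set B : E → ℝ := (Metric.closedBall (0 : E) R).indicator fun _ => (1 + R ^ 2) ^ 15 * M with hB
  have hBi : Integrable B := (integrable_indicator_iff Metric.isClosed_closedBall.measurableSet).2
    (integrableOn_const (isCompact_closedBall _ _).measure_lt_top.ne)
  have key : ∀ (v : E) (x : ℝ), (‖v‖ ≤ R → |x| ≤ M) → ‖ψ v * x‖ ≤ B v := by
    intro v x hx
    by_cases hv : ‖v‖ ≤ R
    · rw [hB, indicator_of_mem (mem_closedBall_zero_iff.2 hv), Real.norm_eq_abs, abs_mul]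
      refine mul_le_mul ((h1 v).trans ?_) (hx hv) (abs_nonneg _) (by positivity)
      unfold wt
      gcongr
    · rw [h2 v (not_le.1 hv).le, zero_mul, norm_zero]
      exact indicator_nonneg (fun _ _ => by positivity) v
  have hQ : Measurable (QO f) :=
    ((by unfold cO; fun_prop : Measurable fun q : E × E × S2 =>
      cO f q.1 q.2).stronglyMeasurable.integral_prod_right' (ν := mu2)).measurable
  have hJ : ∀ ε, Measurable (J ε f) := fun ε =>
    ((by fun_prop : Measurable fun q : E × E × S2 =>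
      ke ε q * inc f f q).stronglyMeasurable.integral_prod_right' (ν := mu2)).measurable
  refine ⟨hBi.mono' (hψ.mul hQ).aestronglyMeasurable (ae_of_all _ fun v => key v _ fun hv =>
    le_of_tendsto (J_tendsto hm (hi v)).abs (hev.mono fun ε hε => hM v hv ε hε.1 hε.2)), ?_⟩
  refine (tendsto_integral_filter_of_dominated_convergence (F := fun ε v => ψ v * J ε f v) B
    (Eventually.of_forall fun ε => (hψ.mul (hJ ε)).aestronglyMeasurable)
    (hev.mono fun ε hε => ae_of_all _ fun v => key v _ fun hv => hM v hv ε hε.1 hε.2) hBi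
    (ae_of_all _ fun v => (J_tendsto hm (hi v)).const_mul (ψ v))).congr' (hev.mono fun ε hε => ?_)
  have h3 := integrable_inc (measurable_ke ε) (ke_nonneg ε) (ke_le_kx hε.1 hε.2) hψ h1 hm hm hf hf
  simp only
  rw [mu3, integral_prod _ h3]
  refine integral_congr_ae (ae_of_all _ fun v => ?_)
  simp only [J]
  rw [← integral_const_mul]
  refine integral_congr_ae (ae_of_all _ fun q => ?_)
  simp only
  ring

end Pool.Agent.BoltzM.Uq
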