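import Pool.Agent.BoltzM.C3.Cancel
import Pool.Agent.BoltzM.Coll.Bound
import Pool.Agent.BoltzM.Stmt

/-! Uniqueness by a weighted `L^1` estimate: definitions and interfaces. -/

set_option autoImplicit false

open MeasureTheory Set Filter Topology
open scoped ENNReal

noncomputable section

namespace Pool.Agent.BoltzM.Uq

open Coll C3

/-- the sign -/
def sg (x : ℝ) : ℝ := if 0 < x then 1 else if x < 0 then -1 else 0

variable [Dim]

/-- the weight -/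
def wt (v : E) : ℝ := (1 + ‖v‖ ^ 2) ^ 15

/-- the cut-off -/
def chi (R : ℝ) (v : E) : ℝ := max 0 (min 1 (2 - ‖v‖ / R))

/-- the kernel times the truncated jump length -/
def kx (p : E × E × S2) : ℝ := ker3 p * min 1 |rho p|

/-- long jumps -/
def kf (p : E × E × S2) : ℝ := if 1 < |rho p| then ker3 p else 0

/-- short jumps -/
def kn (p : E × E × S2) : ℝ := if |rho p| ≤ 1 then ker3 p else 0

/-- jumps of length at least `ε` -/
def ke (ε : ℝ) (p : E × E × S2) : ℝ := if ε ≤ |rho p| then ker3 p else 0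

/-- `a(v_*') b(v') - a(v_*) b(v)` -/
def inc (a b : E → ℝ) (p : E × E × S2) : ℝ :=
  a (pw p.1 p.2.1 p.2.2) * b (pv p.1 p.2.1 p.2.2) - a p.2.1 * b p.1

/-- the collision integrand in the omega form -/
def cO (f : E → ℝ) (v : E) (q : E × S2) : ℝ := ker3 (v, q) * inc f f (v, q)

/-- the collision operator in the omega form -/
def QO (f : E → ℝ) (v : E) : ℝ := ∫ q, cO f v q ∂mu2

/-- weighted bound -/
def Dec (p : ℕ) (K : ℝ) (f : E → ℝ) : Prop := ∀ v, (1 + ‖v‖) ^ p * |f v| ≤ K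

/-- local Lipschitz bound -/
def LocLip (f : E → ℝ) : Prop :=
  ∀ R : ℝ, ∃ L : ℝ, ∀ v v' : E, ‖v‖ ≤ R → ‖v' - v‖ ≤ 1 → |f v' - f v| ≤ L * ‖v' - v‖

/-- U1: the Povzner inequality -/
def PovStmt : Prop :=
  ∃ (C : ℝ) (N : ℕ), 0 ≤ C ∧ ∀ v w : E,
    ∫⁻ o, ENNReal.ofReal (kn (v, w, o) * (2 * |wt (pv v w o) - wt v|)
        + kf (v, w, o) * (wt (pv v w o) + wt (pw v w o) + wt w)) ∂sph
      ≤ ∫⁻ o, ENNReal.ofReal (kf (v, w, o) * wt v) ∂sph
        + ENNReal.ofReal (C * (1 + ‖w‖) ^ N * wt v)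

/-- U2: the terms with a sign -/
def MainStmt : Prop :=
  ∃ p : ℕ, ∀ K : ℝ, ∃ C : ℝ, ∀ (f g : E → ℝ) (R ε : ℝ), 1 ≤ R → 0 < ε →
    Measurable f → Measurable g → (∀ v, 0 ≤ f v) → (∀ v, 0 ≤ g v) → Dec p K f → Dec p K g →
    ∫ q, kc ε q * (sg (f q.1 - g q.1) * (wt q.1 * chi R q.1)) * inc g (f - g) q ∂mu3
      + ∫ q, kf q * (sg (f q.1 - g q.1) * (wt q.1 * chi R q.1)) * (inc f f q - inc g g q) ∂mu3
      ≤ C * (∫ v, |f v - g v| * wt v) + C / R

/-- U3: the short jumps of the term in which the difference is the background -/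
def CrossStmt : Prop :=
  ∃ p : ℕ, ∀ K : ℝ, ∃ C : ℝ, ∀ (f h ψ : E → ℝ) (K' ε : ℝ), 0 < ε → Nice p K f →
    Measurable h → Dec p K' h → Measurable ψ → (∀ v, |ψ v| ≤ wt v) →
    ∫ q, kc ε q * ψ q.1 * inc h f q ∂mu3 ≤ C * ∫ v, |h v| * wt v

/-- U4: removal of the truncation -/
def LimStmt : Prop :=
  ∃ p : ℕ, ∀ (f ψ : E → ℝ) (K R : ℝ), Measurable f → Dec p K f → LocLip f →
    (∀ v, Integrable (cO f v) mu2) → Measurable ψ → (∀ v, |ψ v| ≤ wt v) →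
    (∀ v, R ≤ ‖v‖ → ψ v = 0) →
    Integrable (fun v => ψ v * QO f v) ∧
      Tendsto (fun ε => ∫ q, ke ε q * ψ q.1 * inc f f q ∂mu3) (𝓝[>] 0) (𝓝 (∫ v, ψ v * QO f v))

/-- the estimate in the velocity variable (from U2, U3, U4) -/
def VelStmt : Prop :=
  ∃ p : ℕ, ∀ K : ℝ, ∃ C : ℝ, 0 ≤ C ∧ ∀ (f g : E → ℝ) (R : ℝ), 1 ≤ R → Nice p K f → Dec p K g →
    Measurable g → LocLip g → (∀ v, 0 ≤ f v) → (∀ v, 0 ≤ g v) →
    (∀ v, Integrable (cO f v) mu2) → (∀ v, Integrable (cO g v) mu2) →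
    ∫ v, sg (f v - g v) * (wt v * chi R v) * (QO f v - QO g v)
      ≤ C * (∫ v, |f v - g v| * wt v) + C / R

/-- U6: the sigma form equals the omega form -/
def SigStmt : Prop :=
  ∀ (f : E → ℝ) (v : E), Measurable f →
    Integrable (Stmt.collInt (Stmt.Bk dd) f v) (Stmt.collMeas dd) →
    Integrable (cO f v) mu2 ∧ Stmt.Q (Stmt.Bk dd) f v = QO f v

end Pool.Agent.BoltzM.Uq
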