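import Pool.Agent.BoltzM.Uq.Basic
import Pool.Agent.BoltzM.Coll.Sigma

/-! The estimate in the velocity variable from its three parts; the two forms of the operator. -/

set_option autoImplicit false

open MeasureTheory Set Filter Topology
open scoped ENNReal RealInnerProductSpace

noncomputable section

namespace Pool.Agent.BoltzM.Uq

open Coll C3

variable [Dim]

lemma Nice.locLip {p : ℕ} {K : ℝ} {f : E → ℝ} (h : Nice p K f) : LocLip f :=
  fun _ => ⟨K, fun v v' _ hv => by simpa using h.lip v (v' - v) hv⟩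

theorem vel_of (h2 : MainStmt) (h3 : CrossStmt) (h4 : LimStmt) : VelStmt := by
  obtain ⟨p2, h2⟩ := h2
  obtain ⟨p3, h3⟩ := h3
  obtain ⟨p4, h4⟩ := h4
  refine ⟨p2 + p3 + p4 + (dd + 60), fun K => ?_⟩
  obtain ⟨C2, h2⟩ := h2 K
  obtain ⟨C3, h3⟩ := h3 K
  refine ⟨|C2| + |C3|, by positivity, fun f g R hR nf dg mg lg f0 g0 i1 i2 => ?_⟩
  have mf := nf.measurable
  have df : Dec (p2 + p3 + p4 + (dd + 60)) K f := nf.1
  have mh : Measurable (f - g) := mf.sub mg
  set ψ : E → ℝ := fun v => sg (f v - g v) * (wt v * chi R v) with hψ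
  have mψ : Measurable ψ := by fun_prop
  have bψ : ∀ v, |ψ v| ≤ wt v := fun v => abs_test_le _ _ _
  have sψ : ∀ v, 2 * R ≤ ‖v‖ → ψ v = 0 := fun v hv => by
    simp only [hψ, chi_eq_zero (by linarith) hv, mul_zero]
  obtain ⟨a1, a2⟩ := h4 f ψ K (2 * R) mf (df.mono (by omega)) (Nice.locLip nf) i1 mψ bψ sψ
  obtain ⟨b1, b2⟩ := h4 g ψ K (2 * R) mg (dg.mono (by omega)) lg i2 mψ bψ sψ
  have e : ∫ v, ψ v * (QO f v - QO g v) = (∫ v, ψ v * QO f v) - ∫ v, ψ v * QO g v := by
    simp only [mul_sub]; exact integral_sub a1 b1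
  have hN : 0 ≤ ∫ v, |f v - g v| * wt v :=
    integral_nonneg fun v => mul_nonneg (abs_nonneg _) (wt_pos' v).le
  refine e.trans_le (le_of_tendsto (a2.sub b2) ?_)
  filter_upwards [Ioc_mem_nhdsGT one_pos] with ε hε
  have df' : Dec (dd + 60) K f := df.mono (by omega)
  have dg' : Dec (dd + 60) K g := dg.mono (by omega)
  have ic : ∀ {a b : E → ℝ} {Ka Kb : ℝ}, Measurable a → Measurable b → Dec (dd + 60) Ka a →
      Dec (dd + 60) Kb b → Integrable (fun q => kc ε q * ψ q.1 * inc a b q) mu3 :=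
    fun ha hb da db => integrable_inc (measurable_kc ε) (kc_nonneg ε) (kc_le_kx hε.1) mψ bψ
      ha hb da db
  have jf : ∀ {a b : E → ℝ} {Ka Kb : ℝ}, Measurable a → Measurable b → Dec (dd + 60) Ka a →
      Dec (dd + 60) Kb b → Integrable (fun q => kf q * ψ q.1 * inc a b q) mu3 :=
    fun ha hb da db => integrable_inc (c := 1) measurable_kf kf_nonneg
      (fun q => by simpa using kf_le q) mψ bψ ha hb da db
  have je : ∀ {a : E → ℝ}, Measurable a → Dec (dd + 60) K a →
      Integrable (fun q => ke ε q * ψ q.1 * inc a a q) mu3 :=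
    fun ha da => integrable_inc (measurable_ke ε) (ke_nonneg ε) (ke_le_kx hε.1 hε.2) mψ bψ
      ha ha da da
  have c1 := ic mg mh dg' (df'.sub dg')
  have c2 := ic mh mf (df'.sub dg') df'
  have c3 : Integrable (fun q => kf q * ψ q.1 * (inc f f q - inc g g q)) mu3 := by
    simp only [mul_sub]; exact (jf mf mf df' df').sub (jf mg mg dg' dg')
  have e2 : ∫ q, ke ε q * ψ q.1 * inc f f q ∂mu3 - ∫ q, ke ε q * ψ q.1 * inc g g q ∂mu3 =
      ∫ q, kc ε q * ψ q.1 * inc g (f - g) q ∂mu3
        + ∫ q, kf q * ψ q.1 * (inc f f q - inc g g q) ∂mu3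
        + ∫ q, kc ε q * ψ q.1 * inc (f - g) f q ∂mu3 := by
    have c4 : Integrable (fun q => kc ε q * ψ q.1 * inc g (f - g) q
      + kf q * ψ q.1 * (inc f f q - inc g g q)) mu3 := c1.add c3
    rw [← integral_sub (je mf df') (je mg dg'), ← integral_add c1 c3, ← integral_add c4 c2]
    refine integral_congr_ae (ae_of_all _ fun q => ?_)
    simp only [ke_eq hε.2, inc, Pi.sub_apply]
    ring
  have t2 := h2 f g R ε hR hε.1 mf mg f0 g0 (df.mono (by omega)) (dg.mono (by omega))
  have t3 := h3 f (f - g) ψ (K + K) ε hε.1 (nf.mono (by omega)) mh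
    ((df.sub dg).mono (by omega)) mψ bψ
  simp only [Pi.sub_apply] at t3
  have u1 := mul_le_mul_of_nonneg_right (le_abs_self C2) hN
  have u2 := mul_le_mul_of_nonneg_right (le_abs_self C3) hN
  have u3 : C2 / R ≤ (|C2| + |C3|) / R :=
    div_le_div_of_nonneg_right (by linarith [le_abs_self C2, abs_nonneg C3]) (by linarith)
  rw [e2]
  linarith

open Stmt in
lemma jac_mul_cI' (f : E → ℝ) (v : E) (q : E × S2) : jac v q * cI f v (sgm v q) = cO f v q := by
  have h := jac_mul_cI (fun x => (sM x)⁻¹ * f x) v q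
  have e : (fun x => sM x * ((sM x)⁻¹ * f x)) = f := funext fun x =>
    mul_inv_cancel_left₀ (sM_pos x).ne' _
  rw [e] at h
  rw [h]
  have e5 := sM_pv_mul v q.1 q.2
  have h1 := (sM_pos v).ne'
  have h2 := (sM_pos q.1).ne'
  have h3 := (sM_pos (pv v q.1 q.2)).ne'
  have h4 := (sM_pos (pw v q.1 q.2)).ne'
  simp only [triI, cO, inc, ker3]
  have e6 : sM v * sM q.1 * ((sM (pw v q.1 q.2))⁻¹ * (sM (pv v q.1 q.2))⁻¹) = 1 := by
    rw [← e5]; field_simp
  have e7 : sM v * sM q.1 * ((sM q.1)⁻¹ * (sM v)⁻¹) = 1 := by field_simp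
  linear_combination ker (v - q.1) q.2 * f (pw v q.1 q.2) * f (pv v q.1 q.2) * e6
    - ker (v - q.1) q.2 * f q.1 * f v * e7

theorem sig : SigStmt := by
  intro f v hf hint
  have hi : Measurable fun q : E × S2 => (q.1, (q.2 : E)) := by fun_prop
  have hm := measurable_cI hf v
  have hj := measurable_jac v
  have hj0 : ∀ q, 0 ≤ jac v q := fun q => by unfold jac; positivity
  have e : ∀ q, (ENNReal.ofReal (jac v q)).toReal • cI f v (sgm v q) = cO f v q := fun q => by
    rw [ENNReal.toReal_ofReal (hj0 q), smul_eq_mul]; exact jac_mul_cI' f v q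
  constructor
  · change Integrable (cI f v ∘ fun q : E × S2 => (q.1, (q.2 : E))) mu2 at hint
    rw [← integrable_map_measure hm.aestronglyMeasurable hi.aemeasurable, map_sgm v,
      integrable_map_measure hm.aestronglyMeasurable (measurable_sgm v).aemeasurable,
      integrable_withDensity_iff_integrable_smul' hj.ennreal_ofReal
        (ae_of_all _ fun _ => ENNReal.ofReal_lt_top)] at hint
    exact hint.congr (ae_of_all _ e)
  · change ∫ q : E × S2, cI f v (q.1, (q.2 : E)) ∂mu2 = _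
    rw [← integral_map hi.aemeasurable hm.aestronglyMeasurable, map_sgm v,
      integral_map (measurable_sgm v).aemeasurable hm.aestronglyMeasurable,
      integral_withDensity_eq_integral_toReal_smul hj.ennreal_ofReal
        (ae_of_all _ fun _ => ENNReal.ofReal_lt_top)]
    simp only [e]
    rfl

end Pool.Agent.BoltzM.Uq
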